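import Pool.Agent.MP43a64b.ED
import Pool.Agent.MP43a64b.Surface

set_option autoImplicit false

open scoped Manifold BoundedContinuousFunction
open WeakDual Set Pool.Agent.MP43a64b

namespace Pool.Agent.Results.MP_43a64b_an.ShilovBoundary

universe u

/-- `H^∞(R)`: the algebra of bounded holomorphic functions on `R`, with the supremum norm. -/
def Hinf (R : Type u) [TopologicalSpace R] [ChartedSpace ℂ R] : Subalgebra ℂ (R →ᵇ ℂ) where
  carrier := {f | MDifferentiable 𝓘(ℂ) 𝓘(ℂ) ⇑f}
  mul_mem' hf hg := hf.mul hg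
  add_mem' hf hg := hf.add hg
  algebraMap_mem' _ := mdifferentiable_const

/-- The maximal ideal space of `H^∞(R)`: the characters, i.e. the nonzero multiplicative linear
functionals (the algebra homomorphisms to `ℂ`). -/
def MaxSpace (R : Type u) [TopologicalSpace R] [ChartedSpace ℂ R] : Type u := Hinf R →ₐ[ℂ] ℂ

/-- The Gelfand transform of `f`: its value at the character `φ` is `φ f`. -/
noncomputable def hat {R : Type u} [TopologicalSpace R] [ChartedSpace ℂ R] (f : Hinf R) (φ : MaxSpace R) : ℂ :=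
  DFunLike.coe (F := Hinf R →ₐ[ℂ] ℂ) φ f

/-- The Gelfand topology: the coarsest one for which all Gelfand transforms are continuous. -/
noncomputable instance (R : Type u) [TopologicalSpace R] [ChartedSpace ℂ R] : TopologicalSpace (MaxSpace R) :=
  TopologicalSpace.induced (fun φ f => hat f φ) Pi.topologicalSpace

/-- `K` is a boundary for `H^∞(R)`: it is a closed set of characters on which every Gelfand
transform attains its maximum modulus. -/
def IsBoundary {R : Type u} [TopologicalSpace R] [ChartedSpace ℂ R] (K : Set (MaxSpace R)) :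
    Prop :=
  IsClosed K ∧ ∀ f : Hinf R, ∃ ψ ∈ K, ∀ φ : MaxSpace R, ‖hat f φ‖ ≤ ‖hat f ψ‖

/-- Characters are automatically continuous; the Gelfand topology is the weak topology. -/
noncomputable def charHomeo (R : Type u) [TopologicalSpace R] [ChartedSpace ℂ R]
    [CompleteSpace (Hinf R)] : characterSpace ℂ (Hinf R) ≃ₜ MaxSpace R where
  toEquiv := CharacterSpace.equivAlgHom
  continuous_toFun := continuous_induced_rng.2 <| continuous_pi fun f =>
    (WeakDual.eval_continuous f).comp continuous_subtype_val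
  continuous_invFun := Continuous.subtype_mk (WeakDual.continuous_of_continuous_eval fun f =>
    (continuous_apply f).comp continuous_induced_dom) _

theorem least_of_bdry {R : Type u} [TopologicalSpace R] [ChartedSpace ℂ R]
    [CompleteSpace (Hinf R)] (hne : (characterSpace ℂ (Hinf R)).Nonempty)
    (hed : ExtremallyDisconnected ↥(⋂₀ {K : Set (WeakDual ℂ (Hinf R)) | IsBdry K})) :
    ∃ S : Set (MaxSpace R), IsLeast {K | IsBoundary K} S ∧ ExtremallyDisconnected S := by
  set S : Set (WeakDual ℂ (Hinf R)) := ⋂₀ {K : Set (WeakDual ℂ (Hinf R)) | IsBdry K} with hSdef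
  have hS : IsBdry S := isBdry_sInter hne
  have hC : IsClosed (characterSpace ℂ (Hinf R)) := (isCompact_char (A := Hinf R)).isClosed
  set e := charHomeo R with he
  have hev : ∀ (f : Hinf R) (φ : characterSpace ℂ (Hinf R)), hat f (e φ) = φ f := fun _ _ => rfl
  have hev' : ∀ (f : Hinf R) (φ : MaxSpace R), hat f φ = e.symm φ f := fun _ _ => rfl
  refine ⟨e.symm ⁻¹' (Subtype.val ⁻¹' S), ⟨⟨(hS.1.preimage continuous_subtype_val).preimage
    e.symm.continuous, fun a => ?_⟩, ?_⟩, ?_⟩
  · obtain ⟨ψ, hψ, h⟩ := hS.2.2 a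
    exact ⟨e ⟨ψ, hS.2.1 hψ⟩, by simpa using hψ, fun φ => h (e.symm φ).1 (e.symm φ).2⟩
  · rintro K ⟨hK1, hK2⟩ φ hφ
    have h1 : IsBdry (Subtype.val '' (e ⁻¹' K) : Set (WeakDual ℂ (Hinf R))) := by
      refine ⟨hC.isClosedEmbedding_subtypeVal.isClosedMap _ (hK1.preimage e.continuous), ?_,
        fun a => ?_⟩
      · rintro _ ⟨ψ, -, rfl⟩
        exact ψ.2
      · obtain ⟨ψ, hψ, h⟩ := hK2 a
        exact ⟨(e.symm ψ).1, ⟨e.symm ψ, by simpa using hψ, rfl⟩, fun φ hφ => h (e ⟨φ, hφ⟩)⟩
    obtain ⟨ψ, hψ, h⟩ := (Set.mem_sInter.1 (show (e.symm φ).1 ∈ S from hφ)) _ h1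
    have h2 : ψ = e.symm φ := Subtype.ext h
    rw [h2] at hψ
    simpa using hψ
  · let e' : ↥S ≃ₜ ↥(Subtype.val ⁻¹' S : Set (characterSpace ℂ (Hinf R))) :=
      { toFun := fun x => ⟨⟨x.1, hS.2.1 x.2⟩, x.2⟩
        invFun := fun x => ⟨x.1.1, x.2⟩
        left_inv := fun _ => rfl
        right_inv := fun _ => rfl
        continuous_toFun := by fun_prop
        continuous_invFun := by fun_prop }
    have : ExtremallyDisconnected ↥S := hed
    exact extremallyDisconnected_of_homeo (e'.trans (e.subtype fun x => by simp))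

/-- **The Shilov boundary of `H^∞(R)` is extremally disconnected for every Riemann surface `R`**:
there is a smallest closed set of characters of `H^∞(R)` on which every Gelfand transform attains
its maximum modulus, and it is extremally disconnected. -/
theorem result (R : Type u) [TopologicalSpace R] [T2Space R] [ConnectedSpace R]
    [ChartedSpace ℂ R] [IsManifold 𝓘(ℂ) ⊤ R] :
    ∃ S : Set (MaxSpace R), IsLeast {K | IsBoundary K} S ∧ ExtremallyDisconnected S := by
  have hclosed : IsClosed (Hinf R : Set (R →ᵇ ℂ)) := by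
    rw [← closure_subset_iff_isClosed]
    intro f hf
    have hC : 0 < ‖f‖ + 1 := by positivity
    set c : ℂ := (((‖f‖ + 1)⁻¹ : ℝ) : ℂ) with hc
    have hc0 : c ≠ 0 := by
      rw [hc]; exact_mod_cast (inv_pos.2 hC).ne'
    have hcn : ‖c‖ = (‖f‖ + 1)⁻¹ := by
      rw [hc, Complex.norm_real, Real.norm_eq_abs, abs_of_pos (inv_pos.2 hC)]
    have h1 : (fun x => c * f x) ∈ closure {g : R → ℂ | MDifferentiable 𝓘(ℂ) 𝓘(ℂ) g ∧
        ∀ x, ‖g x‖ ≤ 1} := by
      have hcont : Continuous fun g : R →ᵇ ℂ => fun x => c * g x :=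
        continuous_pi fun x => continuous_const.mul
          (BoundedContinuousFunction.evalCLM ℂ x).continuous
      have h2 : f ∈ closure ((Hinf R : Set (R →ᵇ ℂ)) ∩ Metric.ball f 1) := by
        rw [mem_closure_iff_nhds] at hf ⊢
        intro t ht
        have := hf (t ∩ Metric.ball f 1) (Filter.inter_mem ht (Metric.ball_mem_nhds f one_pos))
        obtain ⟨g, ⟨hgt, hgb⟩, hgA⟩ := this
        exact ⟨g, hgt, hgA, hgb⟩
      refine map_mem_closure hcont h2 ?_
      rintro g ⟨hgA, hgb⟩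
      have hg : MDifferentiable 𝓘(ℂ) 𝓘(ℂ) ⇑(c • g) := (Hinf R).smul_mem hgA c
      have hgn : ‖g‖ ≤ ‖f‖ + 1 := by
        have := norm_sub_norm_le g f
        rw [Metric.mem_ball, dist_eq_norm] at hgb
        linarith
      refine ⟨hg, fun x => ?_⟩
      rw [norm_mul, hcn, inv_mul_le_iff₀ hC, mul_one]
      exact (g.norm_coe_le_norm x).trans hgn
    have h2 := mdiff_of_closure h1
    have h3 : c • f ∈ Hinf R := h2
    have h4 := (Hinf R).smul_mem h3 c⁻¹
    rwa [smul_smul, inv_mul_cancel₀ hc0, one_smul] at h4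
  have : CompleteSpace (Hinf R) := hclosed.completeSpace_coe
  have hcomp : IsCompact {g : R → ℂ | ∃ f : Hinf R, ⇑(f : R →ᵇ ℂ) = g ∧ ‖f‖ ≤ 1} := by
    have heq : {g : R → ℂ | ∃ f : Hinf R, ⇑(f : R →ᵇ ℂ) = g ∧ ‖f‖ ≤ 1} =
        {f : R → ℂ | MDifferentiable 𝓘(ℂ) 𝓘(ℂ) f ∧ ∀ x, ‖f x‖ ≤ 1} := by
      ext g
      constructor
      · rintro ⟨f, rfl, hf⟩
        exact ⟨f.2, fun x => (norm_pt_le f x).trans hf⟩
      · rintro ⟨hg, hg1⟩
        refine ⟨⟨BoundedContinuousFunction.ofNormedAddCommGroup g hg.continuous 1 hg1, hg⟩,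
          rfl, ?_⟩
        exact norm_le_of_pt zero_le_one hg1
    rw [heq]
    exact isCompact_ball
  refine least_of_bdry ⟨_, evPt_mem (Hinf R) (Classical.arbitrary R)⟩ ?_
  by_cases hnc : ∃ f : Hinf R, ∃ x y : R, (f : R →ᵇ ℂ) x ≠ (f : R →ᵇ ℂ) y
  · obtain ⟨f, hf⟩ := hnc
    have hsepR : TopologicalSpace.SeparableSpace R := separable_of_nonconst f.2 hf
    refine ed_abstract (TopologicalSpace.denseSeq R) (fun f M hM h => ?_) hcomp
    refine norm_le_of_pt hM fun x => ?_
    have hcl : IsClosed {x : R | ‖(f : R →ᵇ ℂ) x‖ ≤ M} :=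
      isClosed_le (f : R →ᵇ ℂ).continuous.norm continuous_const
    have hsub : closure (Set.range (TopologicalSpace.denseSeq R)) ⊆
        {x : R | ‖(f : R →ᵇ ℂ) x‖ ≤ M} :=
      closure_minimal (by rintro _ ⟨n, rfl⟩; exact h n) hcl
    exact hsub (TopologicalSpace.denseRange_denseSeq R x)
  · push Not at hnc
    refine ed_abstract (fun _ => Classical.arbitrary R) (fun f M hM h => ?_) hcomp
    refine norm_le_of_pt hM fun x => ?_
    rw [hnc f x (Classical.arbitrary R)]
    exact h 0

end Pool.Agent.Results.MP_43a64b_an.ShilovBoundary
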